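import Mathlib

set_option autoImplicit false
open Finset
open scoped Pointwise

/-! # The group of homotheties and translations -/

namespace Pool.Agent.H45.BK

/-- The map `x ↦ l x + v`. -/
@[ext] structure Ho where
  l : ℝˣ
  v : ℝ × ℝ

namespace Ho

instance : Mul Ho := ⟨fun g h => ⟨g.l * h.l, (g.l : ℝ) • h.v + g.v⟩⟩
instance : One Ho := ⟨⟨1, 0⟩⟩
instance : Inv Ho := ⟨fun g => ⟨g.l⁻¹, -(((g.l⁻¹ : ℝˣ) : ℝ) • g.v)⟩⟩

@[simp] lemma mul_l (g h : Ho) : (g * h).l = g.l * h.l := rfl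
@[simp] lemma mul_v (g h : Ho) : (g * h).v = (g.l : ℝ) • h.v + g.v := rfl
@[simp] lemma one_l : (1 : Ho).l = 1 := rfl
@[simp] lemma one_v : (1 : Ho).v = 0 := rfl
@[simp] lemma inv_l (g : Ho) : (g⁻¹).l = g.l⁻¹ := rfl
@[simp] lemma inv_v (g : Ho) : (g⁻¹).v = -(((g.l⁻¹ : ℝˣ) : ℝ) • g.v) := rfl

instance : Group Ho := Group.ofLeftAxioms
  (fun a b c => Ho.ext (mul_assoc _ _ _) (by simp [smul_smul, add_assoc]))
  (fun a => Ho.ext (by simp) (by simp))
  (fun a => Ho.ext (by simp) (by simp))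

noncomputable instance : DecidableEq Ho := Classical.decEq _

/-- the map -/
def ap (g : Ho) (p : ℝ × ℝ) : ℝ × ℝ := (g.l : ℝ) • p + g.v

lemma ap_mul (g h : Ho) (p : ℝ × ℝ) : ap (g * h) p = ap g (ap h p) := by
  simp [ap, smul_smul, add_assoc]

@[simp] lemma ap_one (p : ℝ × ℝ) : ap 1 p = p := by simp [ap]

@[simp] lemma ap_inv_ap (g : Ho) (p : ℝ × ℝ) : ap g⁻¹ (ap g p) = p := by
  rw [← ap_mul, inv_mul_cancel, ap_one]

@[simp] lemma ap_ap_inv (g : Ho) (p : ℝ × ℝ) : ap g (ap g⁻¹ p) = p := by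
  rw [← ap_mul, mul_inv_cancel, ap_one]

lemma ap_inj (g : Ho) {p q : ℝ × ℝ} (h : ap g p = ap g q) : p = q := by
  rw [← ap_inv_ap g p, h, ap_inv_ap]

lemma ap_sub (g : Ho) (p q : ℝ × ℝ) : ap g p - ap g q = (g.l : ℝ) • (p - q) := by
  simp [ap, smul_sub]

lemma l_ne (g : Ho) : (g.l : ℝ) ≠ 0 := g.l.ne_zero

/-- A map is determined by two points. -/
lemma ext_two {g h : Ho} {p q : ℝ × ℝ} (hpq : p ≠ q) (h1 : ap g p = ap h p)
    (h2 : ap g q = ap h q) : g = h := by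
  have h3 : (g.l : ℝ) • (p - q) = (h.l : ℝ) • (p - q) := by
    rw [← ap_sub, ← ap_sub, h1, h2]
  have h4 : (g.l : ℝ) = h.l := smul_left_injective ℝ (sub_ne_zero.2 hpq) h3
  refine Ho.ext (Units.ext h4) ?_
  unfold ap at h1
  rw [h4] at h1
  exact add_left_cancel h1

/-- A map is determined by its ratio and one point. -/
lemma ext_one {g h : Ho} {p : ℝ × ℝ} (hl : g.l = h.l) (h1 : ap g p = ap h p) : g = h := by
  refine Ho.ext hl ?_
  unfold ap at h1
  rw [hl] at h1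
  exact add_left_cancel h1

/-- the fixed point of a map with ratio different from one -/
lemma exists_fix {g : Ho} (hg : g.l ≠ 1) : ∃ c, ap g c = c := by
  have h1 : (1 : ℝ) - g.l ≠ 0 := by
    intro h
    exact hg (Units.ext (by rw [Units.val_one]; linarith))
  refine ⟨(1 - (g.l : ℝ))⁻¹ • g.v, ?_⟩
  unfold ap
  have : g.v = (1 - (g.l : ℝ)) • ((1 - (g.l : ℝ))⁻¹ • g.v) := by
    rw [smul_smul, mul_inv_cancel₀ h1, one_smul]
  nth_rewrite 2 [this]
  rw [← add_smul]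
  simp

end Ho

open Ho

/-- no three points on a line, in the form of differences -/
def NC (P : Finset (ℝ × ℝ)) : Prop :=
  ∀ a ∈ P, ∀ b ∈ P, ∀ c ∈ P, a ≠ b → a ≠ c → b ≠ c → ∀ t : ℝ, c - a ≠ t • (b - a)

/-- Two points on a line through a point of `P` coincide. -/
lemma NC.eq {P : Finset (ℝ × ℝ)} (hP : NC P) {q x y u : ℝ × ℝ} {s t : ℝ} (hq : q ∈ P)
    (hx : x ∈ P) (hy : y ∈ P) (hxq : x ≠ q) (hyq : y ≠ q) (h1 : x - q = s • u)
    (h2 : y - q = t • u) : x = y := by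
  by_contra hne
  have hs : s ≠ 0 := by
    rintro rfl
    rw [zero_smul] at h1
    exact hxq (sub_eq_zero.1 h1)
  refine hP q hq x hx y hy hxq.symm hyq.symm hne (t / s) ?_
  rw [h1, h2, smul_smul, div_mul_cancel₀ _ hs]

/-- A line contains at most two points of `P`. -/
lemma NC.card_line {P : Finset (ℝ × ℝ)} (hP : NC P) (L : Finset (ℝ × ℝ)) (hL : L ⊆ P)
    (c u : ℝ × ℝ) (h : ∀ x ∈ L, ∃ t : ℝ, x = c + t • u) : L.card ≤ 2 := by
  classical
  by_contra hcon
  rw [not_le, two_lt_card_iff] at hcon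
  obtain ⟨x, y, z, hx, hy, hz, hxy, hxz, hyz⟩ := hcon
  obtain ⟨s, hs⟩ := h x hx
  obtain ⟨t, ht⟩ := h y hy
  obtain ⟨r, hr⟩ := h z hz
  refine hyz (hP.eq (q := x) (u := u) (s := t - s) (t := r - s) (hL hx) (hL hy) (hL hz)
    hxy.symm hxz.symm ?_ ?_)
  · rw [hs, ht, sub_smul]; abel
  · rw [hs, hr, sub_smul]; abel

/-- the number of points of `P` mapped into `P` -/
noncomputable def mm (P : Finset (ℝ × ℝ)) (g : Ho) : ℕ := (P.filter (fun p => ap g p ∈ P)).card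

lemma mm_inv (P : Finset (ℝ × ℝ)) (g : Ho) : mm P g⁻¹ = mm P g := by
  unfold mm
  refine card_nbij' (fun p => ap g⁻¹ p) (fun p => ap g p) ?_ ?_ ?_ ?_
  · intro p hp
    simp only [coe_filter, Set.mem_ofPred_eq] at hp ⊢
    exact ⟨hp.2, by rw [ap_ap_inv]; exact hp.1⟩
  · intro p hp
    simp only [coe_filter, Set.mem_ofPred_eq] at hp ⊢
    exact ⟨hp.2, by rw [ap_inv_ap]; exact hp.1⟩
  · intro p _
    simp
  · intro p _
    simp

/-- **Few rich maps**, first bound. -/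
lemma rich_le {P : Finset (ℝ × ℝ)} (hP : NC P) {η : ℝ} (h2 : 2 ≤ η * P.card)
    (F : Finset Ho) (hF : ∀ g ∈ F, η * P.card ≤ mm P g) :
    (F.card : ℝ) * η ^ 2 ≤ 2 * P.card := by
  classical
  have hn : (0 : ℝ) < P.card := by
    by_contra h
    have h3 : (P.card : ℝ) = 0 := le_antisymm (not_lt.1 h) (Nat.cast_nonneg _)
    rw [h3] at h2; linarith
  have h3 : (F.sigma (fun g => (P.filter (fun p => ap g p ∈ P)).offDiag)).card ≤
      (P ×ˢ (P ×ˢ P)).card := by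
    refine card_le_card_of_injOn (fun x => (x.2.1, (x.2.2, ap x.1 x.2.1))) ?_ ?_
    · rintro ⟨g, p, q⟩ hx
      simp only [coe_sigma, Set.mem_sigma_iff, mem_coe, mem_offDiag, mem_filter] at hx
      simp only [coe_product, Set.mem_prod, mem_coe]
      exact ⟨hx.2.1.1, hx.2.2.1.1, hx.2.1.2⟩
    · rintro ⟨g, p, q⟩ hx ⟨g', p', q'⟩ hx' he
      simp only [coe_sigma, Set.mem_sigma_iff, mem_coe, mem_offDiag, mem_filter] at hx hx'
      simp only [Prod.mk.injEq] at he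
      obtain ⟨rfl, rfl, he⟩ := he
      have h4 : ap g q = ap g' q := by
        refine hP.eq (q := ap g p) (u := q - p) (s := g.l) (t := g'.l) hx.2.1.2
          hx.2.2.1.2 hx'.2.2.1.2 ?_ ?_ ?_ ?_
        · intro h
          exact hx.2.2.2 (ap_inj g h).symm
        · intro h
          rw [he] at h
          exact hx.2.2.2 (ap_inj g' h).symm
        · rw [ap_sub]
        · rw [he, ap_sub]
      have h5 : g = g' := ext_two hx.2.2.2 he h4
      subst h5
      rfl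
  rw [card_sigma, card_product, card_product] at h3
  have h4 : (F.card : ℝ) * ((η * P.card) ^ 2 / 2) ≤
      ((∑ g ∈ F, ((P.filter (fun p => ap g p ∈ P)).offDiag).card : ℕ) : ℝ) := by
    rw [Nat.cast_sum, ← nsmul_eq_mul]
    refine card_nsmul_le_sum _ _ _ fun g hg => ?_
    have h5 : η * P.card ≤ ((P.filter (fun p => ap g p ∈ P)).card : ℝ) := hF g hg
    have h6 : (2 : ℝ) ≤ ((P.filter (fun p => ap g p ∈ P)).card : ℝ) := h2.trans h5
    rw [offDiag_card, Nat.cast_sub (Nat.le_mul_self _)]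
    push_cast
    nlinarith
  have h5 : (F.card : ℝ) * ((η * P.card) ^ 2 / 2) ≤ (P.card : ℝ) * (P.card * P.card) := by
    refine h4.trans ?_
    exact_mod_cast h3
  have h6 : ((F.card : ℝ) * η ^ 2) * ((P.card : ℝ) ^ 2) ≤ (2 * P.card) * ((P.card : ℝ) ^ 2) := by
    nlinarith
  exact le_of_mul_le_mul_right h6 (by positivity)

end Pool.Agent.H45.BK
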