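import Mathlib
import Pool.Agent.H45.BK.Ho

set_option autoImplicit false
open Finset
open scoped Pointwise

/-! # Many rich maps contain many maps with few quotients (dependent random choice) -/

namespace Pool.Agent.H45.BK

open Ho

/-- common points -/
noncomputable def NN (P : Finset (ℝ × ℝ)) (g h : Ho) : ℕ :=
  (P.filter (fun p => ap g p ∈ P ∧ ap h p ∈ P)).card

lemma NN_comm (P : Finset (ℝ × ℝ)) (g h : Ho) : NN P g h = NN P h g := by
  unfold NN
  congr 1
  ext p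
  simp only [mem_filter]
  tauto

lemma NN_le_mm (P : Finset (ℝ × ℝ)) (g h : Ho) : NN P g h ≤ mm P (g * h⁻¹) := by
  unfold NN mm
  refine card_le_card_of_injOn (fun p => ap h p) ?_ ?_
  · intro p hp
    simp only [coe_filter, Set.mem_ofPred_eq] at hp ⊢
    refine ⟨hp.2.2, ?_⟩
    rw [ap_mul, ap_inv_ap]
    exact hp.2.1
  · intro p _ q _ h'
    exact ap_inj h h'

/-- maps sending `p` into `P` -/
noncomputable def HH (P : Finset (ℝ × ℝ)) (G : Finset Ho) (p : ℝ × ℝ) : Finset Ho :=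
  G.filter (fun g => ap g p ∈ P)

/-- bad pairs -/
noncomputable def BP (P : Finset (ℝ × ℝ)) (G : Finset Ho) (η : ℝ) (p : ℝ × ℝ) :
    Finset (Ho × Ho) :=
  (HH P G p ×ˢ HH P G p).filter (fun x => (NN P x.1 x.2 : ℝ) < η * P.card)

lemma sum_HH (P : Finset (ℝ × ℝ)) (G : Finset Ho) :
    ∑ p ∈ P, (HH P G p).card = ∑ g ∈ G, mm P g := by
  unfold HH mm
  simp only [card_filter]
  exact sum_comm

lemma sum_BP (P : Finset (ℝ × ℝ)) (G : Finset Ho) {η : ℝ} (hη : 0 ≤ η) :
    ∑ p ∈ P, ((BP P G η p).card : ℝ) ≤ G.card * G.card * (η * P.card) := by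
  classical
  have h1 : ∀ p ∈ P, ((BP P G η p).card : ℝ) = ∑ x ∈ G ×ˢ G,
      if (ap x.1 p ∈ P ∧ ap x.2 p ∈ P) ∧ (NN P x.1 x.2 : ℝ) < η * P.card then (1 : ℝ) else 0 := by
    intro p _
    rw [sum_boole]
    congr 2
    ext ⟨g, h⟩
    simp only [BP, HH, mem_filter, mem_product]
    tauto
  rw [sum_congr rfl h1, sum_comm, ← Nat.cast_mul, ← card_product, ← nsmul_eq_mul]
  refine sum_le_card_nsmul _ _ _ fun x _ => ?_
  rw [sum_boole]
  by_cases h2 : (NN P x.1 x.2 : ℝ) < η * P.card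
  · refine le_trans ?_ h2.le
    unfold NN
    refine Nat.cast_le.2 (card_le_card ?_)
    intro p hp
    simp only [mem_filter] at hp ⊢
    exact ⟨hp.1, hp.2.1⟩
  · have : P.filter (fun p => (ap x.1 p ∈ P ∧ ap x.2 p ∈ P) ∧ (NN P x.1 x.2 : ℝ) < η * P.card)
        = ∅ := by
      apply filter_eq_empty_iff.2
      intro p _ h
      exact h2 h.2
    rw [this]
    simp only [card_empty, Nat.cast_zero]
    positivity

/-- **Dependent random choice.** -/
lemma drc {P : Finset (ℝ × ℝ)} (hP : NC P) {δ ε : ℝ} (hδ : 0 < δ) (hε : 0 < ε)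
    (h2 : 2 ≤ δ ^ 2 / 32 * P.card) (G : Finset Ho) (hG : ∀ g ∈ G, δ * P.card ≤ mm P g)
    (hGc : ε * P.card ≤ G.card) :
    ∃ A ⊆ G, δ * ε / 4 * P.card ≤ (A.card : ℝ) ∧
      ((A * A⁻¹).card : ℝ) * (δ ^ 9 * ε) ≤ 2 ^ 24 * P.card := by
  classical
  have hn : (0 : ℝ) < P.card := by
    by_contra h
    have h3 : (P.card : ℝ) = 0 := le_antisymm (not_lt.1 h) (Nat.cast_nonneg _)
    rw [h3] at h2; linarith
  have hPne : P.Nonempty := by
    rw [← card_pos]; exact_mod_cast hn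
  have hGpos : (0 : ℝ) < G.card := lt_of_lt_of_le (by positivity) hGc
  -- choice of the point
  have h3 : ∃ p ∈ P, δ ^ 2 / 2 * (G.card : ℝ) ^ 2 ≤
      ((HH P G p).card : ℝ) ^ 2 - 16 * ((BP P G (δ ^ 2 / 32) p).card : ℝ) := by
    refine exists_le_of_sum_le hPne ?_
    rw [sum_const, nsmul_eq_mul, sum_sub_distrib, ← mul_sum]
    have h4 := sum_BP P G (η := δ ^ 2 / 32) (by positivity)
    have h5 : δ * P.card * G.card ≤ ∑ p ∈ P, ((HH P G p).card : ℝ) := by
      have h6 : ((∑ p ∈ P, (HH P G p).card : ℕ) : ℝ) = ((∑ g ∈ G, mm P g : ℕ) : ℝ) := by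
        rw [sum_HH]
      push_cast at h6
      rw [h6]
      have h7 : G.card • (δ * P.card) ≤ ∑ g ∈ G, (mm P g : ℝ) :=
        card_nsmul_le_sum _ _ _ fun g hg => hG g hg
      rw [nsmul_eq_mul] at h7
      linarith
    have h6 := sq_sum_le_card_mul_sum_sq (s := P) (f := fun p => ((HH P G p).card : ℝ))
    have h7 : (δ * P.card * G.card) ^ 2 ≤ P.card * ∑ p ∈ P, ((HH P G p).card : ℝ) ^ 2 :=
      (pow_le_pow_left₀ (by positivity) h5 2).trans h6
    have h8 : δ ^ 2 * P.card * (G.card : ℝ) ^ 2 ≤ ∑ p ∈ P, ((HH P G p).card : ℝ) ^ 2 := by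
      have h9 : (P.card : ℝ) * (δ ^ 2 * P.card * (G.card : ℝ) ^ 2) ≤
          P.card * ∑ p ∈ P, ((HH P G p).card : ℝ) ^ 2 := by
        refine le_trans (le_of_eq ?_) h7
        ring
      exact le_of_mul_le_mul_left h9 hn
    nlinarith
  obtain ⟨p, hp, h4⟩ := h3
  set H := HH P G p with hH
  set B := BP P G (δ ^ 2 / 32) p with hB
  have hHG : H ⊆ G := filter_subset _ _
  have h5 : δ / 2 * (G.card : ℝ) ≤ H.card := by
    have h6 : (0 : ℝ) ≤ (B.card : ℝ) := Nat.cast_nonneg _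
    have h7 : (δ / 2 * (G.card : ℝ)) ^ 2 ≤ (H.card : ℝ) ^ 2 := by nlinarith [sq_nonneg (δ * (G.card : ℝ))]
    exact (pow_le_pow_iff_left₀ (by positivity) (Nat.cast_nonneg _) two_ne_zero).1 h7
  have hHpos : (0 : ℝ) < H.card := lt_of_lt_of_le (by positivity) h5
  have h6 : 16 * (B.card : ℝ) ≤ (H.card : ℝ) ^ 2 := by nlinarith [sq_nonneg (δ * (G.card : ℝ))]
  -- good maps
  set bad : Ho → Finset Ho := fun h => H.filter (fun g => (NN P h g : ℝ) < δ ^ 2 / 32 * P.card)
    with hbad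
  set A := H.filter (fun h => ((bad h).card : ℝ) ≤ H.card / 8) with hA
  have h7 : ((H.filter (fun h => ¬ ((bad h).card : ℝ) ≤ H.card / 8)).card : ℝ) * (H.card / 8) ≤
      B.card := by
    have h8 : (B.card : ℝ) = ∑ h ∈ H, ((bad h).card : ℝ) := by
      have h9 : B.card = ∑ h ∈ H, (bad h).card := by
        rw [hB, BP, card_filter, sum_product]
        refine sum_congr rfl fun h _ => ?_
        rw [hbad, card_filter]
      rw [h9]; push_cast; rfl
    rw [h8, ← nsmul_eq_mul]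
    refine (card_nsmul_le_sum _ _ _ fun h hh => ?_).trans
      (sum_le_sum_of_subset_of_nonneg (filter_subset _ _) fun _ _ _ => Nat.cast_nonneg _)
    rw [mem_filter, not_le] at hh
    exact hh.2.le
  have h8 : ((H.filter (fun h => ¬ ((bad h).card : ℝ) ≤ H.card / 8)).card : ℝ) ≤ H.card / 2 := by
    have h9 : ((H.filter (fun h => ¬ ((bad h).card : ℝ) ≤ H.card / 8)).card : ℝ) *
        (H.card / 8) ≤ (H.card / 2) * (H.card / 8) := by
      refine h7.trans ?_
      nlinarith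
    exact le_of_mul_le_mul_right h9 (by positivity)
  have h9 : (H.card : ℝ) / 2 ≤ A.card := by
    have h10 : (A.card : ℝ) + (H.filter (fun h => ¬ ((bad h).card : ℝ) ≤ H.card / 8)).card =
        H.card := by
      exact_mod_cast card_filter_add_card_filter_not _
    linarith
  refine ⟨A, (filter_subset _ _).trans hHG, ?_, ?_⟩
  · calc δ * ε / 4 * P.card = δ / 2 * (ε * P.card) / 2 := by ring
      _ ≤ δ / 2 * G.card / 2 := by gcongr
      _ ≤ H.card / 2 := by gcongr
      _ ≤ A.card := h9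
  -- the quotients
  set R := (H * H⁻¹).filter (fun g => δ ^ 2 / 32 * P.card ≤ mm P g) with hR
  have hRc : (R.card : ℝ) * (δ ^ 2 / 32) ^ 2 ≤ 2 * P.card := by
    refine rich_le hP h2 R fun g hg => ?_
    rw [hR, mem_filter] at hg
    exact hg.2
  have h10 : ((A * A⁻¹).card : ℝ) * (H.card / 2) ≤ ((R ×ˢ R).card : ℝ) := by
    have h11 : ((A * A⁻¹).card : ℝ) * (H.card / 2) ≤
        ∑ y ∈ A * A⁻¹, (((R ×ˢ R).filter (fun x => x.1 * x.2 = y)).card : ℝ) := by
      rw [← nsmul_eq_mul]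
      refine card_nsmul_le_sum _ _ _ fun y hy => ?_
      obtain ⟨h₁, hh₁, z, hz, rfl⟩ := mem_mul.1 hy
      obtain ⟨h₂, hh₂, rfl⟩ := mem_inv.1 hz
      rw [hA, mem_filter] at hh₁ hh₂
      have h12 : (H.card : ℝ) / 2 ≤ ((H.filter (fun g => g ∉ bad h₁ ∧ g ∉ bad h₂)).card : ℝ) := by
        have h13 : H ⊆ (H.filter (fun g => g ∉ bad h₁ ∧ g ∉ bad h₂)) ∪ (bad h₁ ∪ bad h₂) := by
          intro g hg
          simp only [mem_union, mem_filter]
          by_cases a : g ∈ bad h₁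
          · right; left; exact a
          · by_cases b : g ∈ bad h₂
            · right; right; exact b
            · left; exact ⟨hg, a, b⟩
        have h14 : (H.card : ℝ) ≤ ((H.filter (fun g => g ∉ bad h₁ ∧ g ∉ bad h₂)).card : ℝ) +
            ((bad h₁).card + (bad h₂).card) := by
          have h15 := card_le_card h13
          have h16 := card_union_le (H.filter (fun g => g ∉ bad h₁ ∧ g ∉ bad h₂)) (bad h₁ ∪ bad h₂)
          have h17 := card_union_le (bad h₁) (bad h₂)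
          exact_mod_cast (h15.trans (h16.trans (by omega)))
        have h15 := hh₁.2
        have h16 := hh₂.2
        linarith
      refine h12.trans (Nat.cast_le.2 ?_)
      refine card_le_card_of_injOn (fun g => (h₁ * g⁻¹, g * h₂⁻¹)) ?_ ?_
      · intro g hg
        simp only [coe_filter, Set.mem_ofPred_eq, hbad, mem_filter, not_and, not_lt] at hg
        have h13 := hg.2.1 hg.1
        have h14 := hg.2.2 hg.1
        simp only [coe_filter, Set.mem_ofPred_eq, mem_product]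
        refine ⟨⟨?_, ?_⟩, by group⟩
        · rw [hR, mem_filter]
          refine ⟨mul_mem_mul hh₁.1 (inv_mem_inv hg.1), h13.trans ?_⟩
          exact_mod_cast NN_le_mm P h₁ g
        · rw [hR, mem_filter]
          refine ⟨mul_mem_mul hg.1 (inv_mem_inv hh₂.1), h14.trans ?_⟩
          rw [NN_comm]
          exact_mod_cast NN_le_mm P g h₂
      · intro g _ g' _ h
        simp only [Prod.mk.injEq, mul_right_inj, inv_inj] at h
        exact h.1
    refine h11.trans ?_
    rw [← Nat.cast_sum, sum_card_fiberwise_eq_card_filter]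
    exact_mod_cast card_filter_le _ _
  rw [card_product] at h10
  push_cast at h10
  have h11 : (R.card : ℝ) * δ ^ 4 ≤ 2 ^ 11 * P.card := by
    have : (R.card : ℝ) * (δ ^ 2 / 32) ^ 2 = (R.card : ℝ) * δ ^ 4 / 2 ^ 10 := by ring
    rw [this, div_le_iff₀ (by positivity)] at hRc
    linarith
  have h12 : ((R.card : ℝ) * δ ^ 4) * (R.card * δ ^ 4) ≤
      (2 ^ 11 * P.card) * (2 ^ 11 * P.card) :=
    mul_le_mul h11 h11 (by positivity) (by positivity)
  have h13 : ε * δ / 2 * P.card ≤ (H.card : ℝ) := by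
    calc ε * δ / 2 * P.card = δ / 2 * (ε * P.card) := by ring
      _ ≤ δ / 2 * G.card := by gcongr
      _ ≤ H.card := h5
  have h14 : ((A * A⁻¹).card : ℝ) * (ε * δ / 2 * P.card / 2) * (δ ^ 4 * δ ^ 4) ≤
      (2 ^ 11 * P.card) * (2 ^ 11 * P.card) := by
    calc ((A * A⁻¹).card : ℝ) * (ε * δ / 2 * P.card / 2) * (δ ^ 4 * δ ^ 4)
        ≤ ((A * A⁻¹).card : ℝ) * (H.card / 2) * (δ ^ 4 * δ ^ 4) := by gcongr
      _ ≤ ((R.card : ℝ) * R.card) * (δ ^ 4 * δ ^ 4) := by gcongr
      _ = ((R.card : ℝ) * δ ^ 4) * (R.card * δ ^ 4) := by ring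
      _ ≤ _ := h12
  have h15 : (((A * A⁻¹).card : ℝ) * (δ ^ 9 * ε)) * P.card ≤ (2 ^ 24 * P.card) * P.card := by
    have : ((A * A⁻¹).card : ℝ) * (ε * δ / 2 * P.card / 2) * (δ ^ 4 * δ ^ 4) =
        (((A * A⁻¹).card : ℝ) * (δ ^ 9 * ε)) * P.card / 4 := by ring
    rw [this] at h14
    linarith
  exact le_of_mul_le_mul_right h15 hn

end Pool.Agent.H45.BK
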