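import Mathlib

set_option autoImplicit false
open Finset
open scoped Pointwise

/-! # A finite set with few quotients contains a large part of a translate of a set of slow growth -/

namespace Pool.Agent.H45.BK

/-- collisions of a map -/
lemma collisions {U G : Type*} [DecidableEq U] [DecidableEq G] (s : Finset U) (f : U → G) :
    (s.card : ℝ) ^ 2 ≤ (s.image f).card *
      (((s ×ˢ s).filter (fun p => f p.1 = f p.2)).card : ℝ) := by
  have h1 : s.card = ∑ x ∈ s.image f, (s.filter (fun u => f u = x)).card :=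
    card_eq_sum_card_fiberwise (fun u hu => mem_image_of_mem f hu)
  have h2 : ((s ×ˢ s).filter (fun p => f p.1 = f p.2)).card =
      ∑ x ∈ s.image f, (s.filter (fun u => f u = x)).card ^ 2 := by
    rw [card_eq_sum_card_fiberwise (f := fun p => f p.1) (t := s.image f)]
    · refine sum_congr rfl fun x _ => ?_
      rw [sq, ← card_product]
      congr 1
      ext p
      simp only [mem_filter, mem_product]
      constructor
      · rintro ⟨⟨⟨a, b⟩, c⟩, d⟩
        exact ⟨⟨a, d⟩, b, by rw [← c]; exact d⟩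
      · rintro ⟨⟨a, b⟩, c, d⟩
        exact ⟨⟨⟨a, c⟩, by rw [b, d]⟩, b⟩
    · intro p hp
      simp only [coe_filter, mem_product, Set.mem_ofPred_eq] at hp
      exact mem_image_of_mem f hp.1.1
  have h3 := sq_sum_le_card_mul_sum_sq (s := s.image f)
    (f := fun x => ((s.filter (fun u => f u = x)).card : ℝ))
  rw [h1, h2]
  push_cast
  exact h3

variable {G : Type*} [Group G] [DecidableEq G]

/-- number of representations as a quotient -/
noncomputable def rr (A : Finset G) (s : G) : ℕ :=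
  ((A ×ˢ A).filter (fun p => p.1⁻¹ * p.2 = s)).card

lemma rr_le (A : Finset G) (s : G) : rr A s ≤ A.card := by
  unfold rr
  refine card_le_card_of_injOn (fun p => p.1) ?_ ?_
  · intro p hp
    simp only [coe_filter, mem_product, Set.mem_ofPred_eq] at hp
    exact hp.1.1
  · intro p hp q hq h
    simp only [coe_filter, mem_product, Set.mem_ofPred_eq] at hp hq h
    have : p.2 = q.2 := by
      have h1 : p.2 = p.1 * s := by rw [← hp.2]; group
      have h2 : q.2 = q.1 * s := by rw [← hq.2]; group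
      rw [h1, h2, h]
    exact Prod.ext h this

/-- the elements with many representations -/
noncomputable def SS (A : Finset G) (K : ℝ) : Finset G :=
  (A⁻¹ * A).filter (fun s => (A.card : ℝ) ≤ 2 * K * rr A s)

/-- some translate of `SS` contains a large part of `A` -/
lemma exists_base (A : Finset G) (hA : A.Nonempty) {K : ℝ} (hK : 0 < K)
    (h : ((A * A⁻¹).card : ℝ) ≤ K * A.card) :
    ∃ a ∈ A, (A.card : ℝ) ≤ 2 * K * (A.filter (fun b => a⁻¹ * b ∈ SS A K)).card := by
  classical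
  have hn : (0 : ℝ) < A.card := by exact_mod_cast hA.card_pos
  have h1 := collisions (A ×ˢ A) (fun p => p.1 * p.2⁻¹)
  have h2 : ((A ×ˢ A).image (fun p => p.1 * p.2⁻¹)) = A * A⁻¹ := by
    ext x
    simp only [mem_image, mem_product, mem_mul, mem_inv]
    constructor
    · rintro ⟨⟨a, b⟩, ⟨h3, h4⟩, h5⟩
      exact ⟨a, h3, b⁻¹, ⟨b, h4, rfl⟩, h5⟩
    · rintro ⟨a, h3, c, ⟨b, h4, rfl⟩, h5⟩
      exact ⟨⟨a, b⟩, ⟨h3, h4⟩, h5⟩
  rw [h2, card_product] at h1
  have h3 : (((A ×ˢ A) ×ˢ (A ×ˢ A)).filter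
      (fun p => p.1.1 * p.1.2⁻¹ = p.2.1 * p.2.2⁻¹)).card =
      ∑ a ∈ A, ∑ b ∈ A, rr A (a⁻¹ * b) := by
    rw [← sum_product', card_eq_sum_card_fiberwise (f := fun p => (p.2.1, p.1.1)) (t := A ×ˢ A)]
    · refine sum_congr rfl fun x hx => ?_
      unfold rr
      refine card_nbij' (fun p => (p.2.2, p.1.2)) (fun q => ((x.2, q.2), (x.1, q.1))) ?_ ?_ ?_ ?_
      · rintro ⟨⟨a, b⟩, ⟨c, d⟩⟩ hp
        simp only [coe_filter, mem_product, mem_filter, Set.mem_ofPred_eq] at hp ⊢
        obtain ⟨⟨⟨⟨h3, h4⟩, h5, h6⟩, h7⟩, h8⟩ := hp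
        refine ⟨⟨h6, h4⟩, ?_⟩
        rw [← h8]
        simp only
        have : a = c * d⁻¹ * b := by rw [← h7]; group
        rw [this]; group
      · rintro ⟨d, b⟩ hp
        simp only [coe_filter, mem_product, mem_filter, Set.mem_ofPred_eq] at hp ⊢
        rw [mem_product] at hx
        refine ⟨⟨⟨⟨hx.2, hp.1.2⟩, hx.1, hp.1.1⟩, ?_⟩, trivial⟩
        have : b = d * (x.1⁻¹ * x.2) := by rw [← hp.2]; group
        rw [this]; group
      · rintro ⟨⟨a, b⟩, ⟨c, d⟩⟩ hp
        simp only [coe_filter, mem_product, mem_filter, Set.mem_ofPred_eq] at hp ⊢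
        rw [← hp.2]
      · rintro ⟨d, b⟩ hp
        rfl
    · rintro ⟨⟨a, b⟩, ⟨c, d⟩⟩ hp
      simp only [coe_filter, mem_product, Set.mem_ofPred_eq, coe_product, Set.mem_prod,
        mem_coe] at hp ⊢
      exact ⟨hp.1.2.1, hp.1.1.1⟩
  rw [h3] at h1
  push_cast at h1
  have h4 : (A.card : ℝ) ^ 3 ≤ K * ∑ a ∈ A, ∑ b ∈ A, (rr A (a⁻¹ * b) : ℝ) := by
    have h5 : (0 : ℝ) ≤ ∑ a ∈ A, ∑ b ∈ A, (rr A (a⁻¹ * b) : ℝ) :=
      sum_nonneg fun _ _ => sum_nonneg fun _ _ => Nat.cast_nonneg _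
    have h6 := h1.trans (mul_le_mul_of_nonneg_right h h5)
    have h7 : (A.card : ℝ) * (A.card : ℝ) ^ 3 ≤
        A.card * (K * ∑ a ∈ A, ∑ b ∈ A, (rr A (a⁻¹ * b) : ℝ)) := by
      calc (A.card : ℝ) * (A.card : ℝ) ^ 3 = ((A.card : ℝ) * A.card) ^ 2 := by ring
        _ ≤ _ := h6
        _ = _ := by ring
    exact le_of_mul_le_mul_left h7 hn
  -- average over `a`
  have h5 : ∃ a ∈ A, (A.card : ℝ) ^ 2 / K ≤ ∑ b ∈ A, (rr A (a⁻¹ * b) : ℝ) := by
    refine exists_le_of_sum_le hA ?_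
    rw [sum_const, nsmul_eq_mul]
    have : (A.card : ℝ) * ((A.card : ℝ) ^ 2 / K) = (A.card : ℝ) ^ 3 / K := by ring
    rw [this, div_le_iff₀ hK]
    linarith
  obtain ⟨a, ha, h6⟩ := h5
  refine ⟨a, ha, ?_⟩
  have h7 : ∑ b ∈ A, (rr A (a⁻¹ * b) : ℝ) ≤
      (A.filter (fun b => a⁻¹ * b ∈ SS A K)).card * (A.card : ℝ) +
        A.card * (A.card / (2 * K)) := by
    rw [← sum_filter_add_sum_filter_not A (fun b => a⁻¹ * b ∈ SS A K)]
    refine add_le_add ?_ ?_
    · rw [← nsmul_eq_mul]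
      refine sum_le_card_nsmul _ _ _ fun b _ => ?_
      exact_mod_cast rr_le A _
    · have h8 : ∑ x ∈ A.filter (fun b => ¬ a⁻¹ * b ∈ SS A K), (rr A (a⁻¹ * x) : ℝ) ≤
          (A.filter (fun b => ¬ a⁻¹ * b ∈ SS A K)).card • ((A.card : ℝ) / (2 * K)) := by
        refine sum_le_card_nsmul _ _ _ fun b hb => ?_
        rw [mem_filter] at hb
        unfold SS at hb
        rw [mem_filter, not_and, not_le] at hb
        have h9 := hb.2 (mul_mem_mul (inv_mem_inv ha) hb.1)
        rw [le_div_iff₀ (by positivity)]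
        linarith
      refine h8.trans ?_
      rw [nsmul_eq_mul]
      refine mul_le_mul_of_nonneg_right ?_ (by positivity)
      exact_mod_cast card_filter_le _ _
  have h8 := h6.trans h7
  have h9 : (A.card : ℝ) ^ 2 / K = 2 * (A.card * (A.card / (2 * K))) := by
    field_simp
  rw [h9] at h8
  have h10 : (A.card : ℝ) * (A.card / (2 * K)) ≤
      A.card * ((A.filter (fun b => a⁻¹ * b ∈ SS A K)).card : ℝ) := by linarith
  have h11 := le_of_mul_le_mul_left h10 hn
  rw [div_le_iff₀ (by positivity)] at h11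
  linarith

/-- covering step -/
lemma step_le (A X B : Finset G) {K : ℝ} (hK : 0 < K) :
    ((X * SS A K * B).card : ℝ) * A.card ≤ 2 * K * ((X * A⁻¹).card * (A * B).card) := by
  classical
  have h1 : ((X * SS A K * B).card : ℝ) * (A.card / (2 * K)) ≤
      ((((X * A⁻¹) ×ˢ (A * B)).card : ℕ) : ℝ) := by
    have h2 : ((X * SS A K * B).card : ℝ) * (A.card / (2 * K)) ≤
        ∑ y ∈ X * SS A K * B, ((((X * A⁻¹) ×ˢ (A * B)).filter (fun p => p.1 * p.2 = y)).card : ℝ) := by
      rw [← nsmul_eq_mul]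
      refine card_nsmul_le_sum _ _ _ fun y hy => ?_
      obtain ⟨w, hw, b, hb, rfl⟩ := mem_mul.1 hy
      obtain ⟨x, hx, s, hs, rfl⟩ := mem_mul.1 hw
      unfold SS at hs
      rw [mem_filter] at hs
      rw [div_le_iff₀ (by positivity)]
      have h3 : rr A s ≤ (((X * A⁻¹) ×ˢ (A * B)).filter (fun p => p.1 * p.2 = x * s * b)).card := by
        unfold rr
        refine card_le_card_of_injOn (fun p => (x * p.1⁻¹, p.2 * b)) ?_ ?_
        · rintro ⟨c, d⟩ hp
          simp only [coe_filter, mem_product, Set.mem_ofPred_eq] at hp ⊢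
          refine ⟨⟨mul_mem_mul hx (inv_mem_inv hp.1.1), mul_mem_mul hp.1.2 hb⟩, ?_⟩
          rw [← hp.2]; group
        · rintro ⟨c, d⟩ hp ⟨c', d'⟩ hp' h
          simp only [Prod.mk.injEq, mul_right_inj, inv_inj, mul_left_inj] at h ⊢
          exact h
      have h4 : (rr A s : ℝ) ≤
          ((((X * A⁻¹) ×ˢ (A * B)).filter (fun p => p.1 * p.2 = x * s * b)).card : ℝ) := by
        exact_mod_cast h3
      calc (A.card : ℝ) ≤ 2 * K * rr A s := hs.2
        _ ≤ 2 * K * _ := mul_le_mul_of_nonneg_left h4 (by positivity)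
        _ = _ := by ring
    refine h2.trans ?_
    rw [← Nat.cast_sum, sum_card_fiberwise_eq_card_filter]
    exact_mod_cast card_filter_le _ _
  rw [card_product, mul_div_assoc'] at h1
  rw [div_le_iff₀ (by positivity)] at h1
  push_cast at h1
  linarith

/-- growth of the powers -/
lemma pow_le (A : Finset G) (hA : A.Nonempty) {K : ℝ} (hK : 0 < K)
    (h : ((A * A⁻¹).card : ℝ) ≤ K * A.card) (k : ℕ) :
    (((SS A K) ^ k).card : ℝ) ≤ (2 * K ^ 2) ^ k * K * A.card := by
  have hn : (0 : ℝ) < A.card := by exact_mod_cast hA.card_pos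
  have h1 : ∀ k : ℕ, ((A * (SS A K) ^ k * A⁻¹).card : ℝ) ≤ (2 * K ^ 2) ^ k * K * A.card := by
    intro k
    induction k with
    | zero => simpa using h
    | succ k ih =>
      rw [pow_succ, ← mul_assoc]
      have h2 := step_le A (A * (SS A K) ^ k) A⁻¹ hK
      have h3 : ((A * (SS A K) ^ k * A⁻¹).card : ℝ) * (A * A⁻¹).card ≤
          ((2 * K ^ 2) ^ k * K * A.card) * (K * A.card) := by
        refine mul_le_mul ih h (Nat.cast_nonneg _) (by positivity)
      have h4 : ((A * (SS A K) ^ k * SS A K * A⁻¹).card : ℝ) * A.card ≤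
          ((2 * K ^ 2) ^ (k + 1) * K * A.card) * A.card := by
        refine h2.trans ?_
        calc 2 * K * (((A * (SS A K) ^ k * A⁻¹).card : ℝ) * (A * A⁻¹).card)
            ≤ 2 * K * (((2 * K ^ 2) ^ k * K * A.card) * (K * A.card)) :=
              mul_le_mul_of_nonneg_left h3 (by positivity)
          _ = _ := by ring
      exact le_of_mul_le_mul_right h4 hn
  refine le_trans ?_ (h1 k)
  obtain ⟨a, ha⟩ := hA
  have h2 : ((SS A K) ^ k).card ≤ (A * (SS A K) ^ k * A⁻¹).card := by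
    refine card_le_card_of_injOn (fun s => a * s * a⁻¹) ?_ ?_
    · intro s hs
      exact mul_mem_mul (mul_mem_mul ha hs) (inv_mem_inv ha)
    · intro s _ t _ hst
      simpa using hst
  exact_mod_cast h2

lemma SS_inv (A : Finset G) (K : ℝ) {s : G} (hs : s ∈ SS A K) : s⁻¹ ∈ SS A K := by
  unfold SS at hs ⊢
  rw [mem_filter] at hs ⊢
  have h1 : rr A s⁻¹ = rr A s := by
    unfold rr
    refine card_nbij' (fun p => (p.2, p.1)) (fun p => (p.2, p.1)) ?_ ?_ ?_ ?_
    · rintro ⟨c, d⟩ hp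
      simp only [coe_filter, mem_product, Set.mem_ofPred_eq] at hp ⊢
      refine ⟨⟨hp.1.2, hp.1.1⟩, ?_⟩
      rw [← inv_inj, ← hp.2]; group
    · rintro ⟨c, d⟩ hp
      simp only [coe_filter, mem_product, Set.mem_ofPred_eq] at hp ⊢
      refine ⟨⟨hp.1.2, hp.1.1⟩, ?_⟩
      rw [← hp.2]; group
    · intro _ _; rfl
    · intro _ _; rfl
  rw [h1]
  refine ⟨?_, hs.2⟩
  obtain ⟨c, hc, d, hd, rfl⟩ := mem_mul.1 hs.1
  rw [mem_inv] at hc
  obtain ⟨c', hc', rfl⟩ := hc
  rw [mul_inv_rev, inv_inv]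
  exact mul_mem_mul (inv_mem_inv hd) hc'

end Pool.Agent.H45.BK
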