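import Mathlib

set_option autoImplicit false
open Finset SimpleGraph SimpleGraph.TripartiteFromTriangles
open scoped Pointwise

/-! # Three term progressions in finite sets of small tripling -/

namespace Pool.Agent.H45.BK

variable {V : Type*} [AddCommGroup V] [Module ℝ V] [DecidableEq V]

/-- triangle indices -/
def tri (Q : Finset V) : Finset ({x // x ∈ Q} × {x // x ∈ Q + Q} × {x // x ∈ Q + Q + Q}) :=
  univ.filter (fun p => (p.2.1 : V) - p.1 ∈ Q ∧ (p.2.2 : V) = p.2.1 + (p.2.1 - p.1))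

lemma mem_tri {Q : Finset V} {a : {x // x ∈ Q}} {b : {x // x ∈ Q + Q}} {c : {x // x ∈ Q + Q + Q}} :
    (a, b, c) ∈ tri Q ↔ (b : V) - a ∈ Q ∧ (c : V) = b + (b - a) := by
  simp [tri]

lemma two_cancel {x y : V} (h : x + x = y + y) : x = y := by
  have h1 : (2 : ℝ) • x = (2 : ℝ) • y := by rw [two_smul, two_smul, h]
  exact smul_right_injective V (two_ne_zero) h1

lemma tri_disj (Q : Finset V) : ExplicitDisjoint (tri Q) where
  inj₀ a b c a' h h' := by
    rw [mem_tri] at h h'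
    have := h.2.symm.trans h'.2
    apply Subtype.ext
    simpa using this
  inj₁ a b c b' h h' := by
    rw [mem_tri] at h h'
    have := h.2.symm.trans h'.2
    apply Subtype.ext
    apply two_cancel
    have h2 : (b : V) + b = (b + (b - a)) + a := by abel
    have h3 : (b' : V) + b' = (b' + (b' - a)) + a := by abel
    rw [h2, h3, this]
  inj₂ a b c c' h h' := by
    rw [mem_tri] at h h'
    exact Subtype.ext (h.2.trans h'.2.symm)

lemma tri_noacc (Q : Finset V) (hQ : ∀ x d : V, d ≠ 0 → x ∈ Q → x + d ∈ Q → x + d + d ∉ Q) :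
    NoAccidental (tri Q) where
  eq_or_eq_or_eq a a' b b' c c' h1 h2 h3 := by
    rw [mem_tri] at h1 h2 h3
    right; left
    by_contra hb
    have hd : (b' : V) - b ≠ 0 := by
      intro h
      exact hb (Subtype.ext (sub_eq_zero.1 h).symm)
    refine hQ ((b : V) - a) ((b' : V) - b) hd h3.1 ?_ ?_
    · have : (b : V) - a + (b' - b) = b' - a := by abel
      rw [this]; exact h2.1
    · have h4 : (b : V) + (b - a') = b' + (b' - a) := h1.2.symm.trans h2.2
      have : (b : V) - a + (b' - b) + (b' - b) = b - a' := by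
        have h5 : (b : V) - a + (b' - b) + (b' - b) = (b' + (b' - a)) - b := by abel
        rw [h5, ← h4]; abel
      rw [this]; exact h1.1

lemma card_tri (Q : Finset V) : (tri Q).card = Q.card * Q.card := by
  rw [← card_product]
  apply le_antisymm
  · refine card_le_card_of_injOn (fun p => ((p.1 : V), (p.2.1 : V) - p.1)) ?_ ?_
    · rintro ⟨a, b, c⟩ h
      rw [mem_coe, mem_tri] at h
      simp only [coe_product, Set.mem_prod, mem_coe]
      exact ⟨a.2, h.1⟩
    · rintro ⟨a, b, c⟩ h ⟨a', b', c'⟩ h' e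
      rw [mem_coe, mem_tri] at h h'
      simp only [Prod.mk.injEq] at e
      have e1 : a = a' := Subtype.ext e.1
      subst e1
      have e2 : b = b' := by
        apply Subtype.ext
        simpa using e.2
      subst e2
      have e3 : c = c' := Subtype.ext (h.2.trans h'.2.symm)
      rw [e3]
  · refine card_le_card_of_forall_subsingleton
      (fun (q : V × V) (p : {x // x ∈ Q} × {x // x ∈ Q + Q} × {x // x ∈ Q + Q + Q}) =>
        (p.1 : V) = q.1 ∧ (p.2.1 : V) - p.1 = q.2) ?_ ?_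
    · rintro ⟨x, a⟩ hp
      rw [mem_product] at hp
      have h1 : x + a ∈ Q + Q := add_mem_add hp.1 hp.2
      have h2 : x + a + a ∈ Q + Q + Q := add_mem_add h1 hp.2
      refine ⟨(⟨x, hp.1⟩, ⟨x + a, h1⟩, ⟨x + a + a, h2⟩), ?_, rfl, ?_⟩
      · rw [mem_tri]
        simp only [add_sub_cancel_left]
        exact ⟨hp.2, trivial⟩
      · simp
    · rintro ⟨a, b, c⟩ h ⟨x, y⟩ hx ⟨x', y'⟩ hx'
      obtain ⟨-, h1, h2⟩ := hx
      obtain ⟨-, h3, h4⟩ := hx'
      simp only at h1 h2 h3 h4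
      rw [← h1, ← h2, ← h3, ← h4]

/-- **Roth's theorem for sets of small tripling.** -/
theorem roth_tripling (K : ℝ) (hK : 1 ≤ K) : ∃ M : ℝ, ∀ Q : Finset V, M < Q.card →
    ((Q + Q + Q).card : ℝ) ≤ K * Q.card →
    ∃ x d : V, d ≠ 0 ∧ x ∈ Q ∧ x + d ∈ Q ∧ x + d + d ∈ Q := by
  have hε : (0 : ℝ) < 1 / (9 * K ^ 2) := by positivity
  have hb : 0 < triangleRemovalBound (1 / (9 * K ^ 2)) := triangleRemovalBound_pos hε
  refine ⟨(triangleRemovalBound (1 / (9 * K ^ 2)))⁻¹, fun Q hM hQ => ?_⟩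
  by_contra hcon
  have hfree : ∀ x d : V, d ≠ 0 → x ∈ Q → x + d ∈ Q → x + d + d ∉ Q := by
    intro x d hd h1 h2 h3
    exact hcon ⟨x, d, hd, h1, h2, h3⟩
  have hpos : (0 : ℝ) < Q.card := lt_trans (by positivity) hM
  have hne : Q.Nonempty := by
    rw [← card_pos]; exact_mod_cast hpos
  have i1 := tri_disj Q
  have i2 := tri_noacc Q hfree
  have hQQ : (Q + Q).card ≤ (Q + Q + Q).card := card_le_card_add_right hne
  have hQQ' : ((Q + Q).card : ℝ) ≤ K * Q.card := le_trans (by exact_mod_cast hQQ) hQ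
  have hfar : (graph (tri Q)).FarFromTriangleFree (1 / (9 * K ^ 2)) := by
    refine farFromTriangleFree (t := tri Q) (ε := (1 / (9 * K ^ 2) : ℝ)) ?_
    rw [card_tri]
    simp only [Fintype.card_coe]
    push_cast
    have h1 : ((Q.card : ℝ) + (Q + Q).card + (Q + Q + Q).card) ≤ 3 * K * Q.card := by nlinarith
    have h2 : ((Q.card : ℝ) + (Q + Q).card + (Q + Q + Q).card) ^ 2 ≤ (3 * K * Q.card) ^ 2 :=
      pow_le_pow_left₀ (by positivity) h1 2
    calc 1 / (9 * K ^ 2) * ((Q.card : ℝ) + (Q + Q).card + (Q + Q + Q).card) ^ 2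
        ≤ 1 / (9 * K ^ 2) * (3 * K * Q.card) ^ 2 := mul_le_mul_of_nonneg_left h2 hε.le
      _ = (Q.card : ℝ) * Q.card := by field_simp; ring
  have h1 := hfar.le_card_cliqueFinset
  rw [card_triangles, card_tri] at h1
  have h2 : (Q.card : ℝ) ≤ (Fintype.card ({x // x ∈ Q} ⊕ {x // x ∈ Q + Q} ⊕ {x // x ∈ Q + Q + Q}) : ℝ) := by
    simp only [Fintype.card_sum, Fintype.card_coe]
    push_cast
    have := Nat.cast_nonneg (α := ℝ) (Q + Q).card
    have := Nat.cast_nonneg (α := ℝ) (Q + Q + Q).card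
    linarith
  have h3 : triangleRemovalBound (1 / (9 * K ^ 2)) * (Q.card : ℝ) ^ 3 ≤ (Q.card : ℝ) * Q.card := by
    refine le_trans (mul_le_mul_of_nonneg_left (pow_le_pow_left₀ hpos.le h2 3) hb.le) ?_
    refine h1.trans (le_of_eq ?_)
    push_cast
    ring
  have h4 : triangleRemovalBound (1 / (9 * K ^ 2)) * (Q.card : ℝ) ≤ 1 := by
    have h5 : (triangleRemovalBound (1 / (9 * K ^ 2)) * (Q.card : ℝ)) * ((Q.card : ℝ) ^ 2) ≤
        1 * ((Q.card : ℝ) ^ 2) := by
      calc _ = triangleRemovalBound (1 / (9 * K ^ 2)) * (Q.card : ℝ) ^ 3 := by ring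
        _ ≤ _ := h3
        _ = _ := by ring
    exact le_of_mul_le_mul_right h5 (by positivity)
  rw [inv_lt_iff_one_lt_mul₀ hb] at hM
  linarith

/-- Roth's theorem for sets with few differences. -/
theorem roth_diff (K : ℝ) (hK : 1 ≤ K) : ∃ M : ℝ, ∀ Q : Finset V, M < Q.card →
    ((Q - Q).card : ℝ) ≤ K * Q.card →
    ∃ x d : V, d ≠ 0 ∧ x ∈ Q ∧ x + d ∈ Q ∧ x + d + d ∈ Q := by
  obtain ⟨M, hM⟩ := roth_tripling (V := V) (K ^ 3) (one_le_pow₀ hK)
  refine ⟨max M 0, fun Q hQ h => hM Q (lt_of_le_of_lt (le_max_left _ _) hQ) ?_⟩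
  have hpos : (0 : ℝ) < Q.card := lt_of_le_of_lt (le_max_right _ _) hQ
  have hne : Q.Nonempty := by
    rw [← card_pos]; exact_mod_cast hpos
  have h1 := pluennecke_ruzsa_inequality_nsmul_sub hne Q 3
  have h2 : ((3 • Q).card : ℝ) ≤ (((Q - Q).card : ℝ) / Q.card) ^ 3 * Q.card := by
    have := (NNRat.cast_le (K := ℝ)).2 h1
    push_cast at this
    exact this
  have h3 : 3 • Q = Q + Q + Q := by
    rw [show (3 : ℕ) = 1 + 1 + 1 from rfl, add_nsmul, add_nsmul, one_nsmul]
  rw [h3] at h2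
  refine h2.trans (mul_le_mul_of_nonneg_right ?_ hpos.le)
  refine pow_le_pow_left₀ (by positivity) ?_ 3
  rw [div_le_iff₀ hpos]
  exact h

end Pool.Agent.H45.BK
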