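import Mathlib
import Pool.Agent.H45.BK.Grp
import Pool.Agent.H45.BK.Roth
import Pool.Agent.H45.BK.Drc

set_option autoImplicit false
open Finset
open scoped Pointwise

/-! # A set without three points on a line has few rich homotheties -/

namespace Pool.Agent.H45.BK

open Ho

/-- translations in the fourth power -/
noncomputable def TT (S : Finset Ho) : Finset Ho := (S ^ 4).filter (fun t => t.l = 1)

lemma mem4 {S : Finset Ho} {a b c d : Ho} (ha : a ∈ S) (hb : b ∈ S) (hc : c ∈ S) (hd : d ∈ S) :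
    a * b * c * d ∈ S ^ 4 := by
  have : S ^ 4 = S * S * S * S := by
    rw [pow_succ, pow_succ, pow_succ, pow_one]
  rw [this]
  exact mul_mem_mul (mul_mem_mul (mul_mem_mul ha hb) hc) hd

/-- translations times ratios -/
lemma TT_card (S B : Finset Ho) (hB : B ⊆ S) :
    (TT S).card * (B.image (fun b => b.l)).card ≤ (S ^ 5).card := by
  classical
  rw [← card_product]
  have hch : ∀ lam ∈ B.image (fun b => b.l), ∃ b ∈ B, b.l = lam := by
    intro lam h
    rw [mem_image] at h
    exact h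
  choose! f hf1 hf2 using hch
  refine card_le_card_of_injOn (fun x => x.1 * f x.2) ?_ ?_
  · rintro ⟨t, lam⟩ hx
    simp only [coe_product, Set.mem_prod, mem_coe] at hx
    rw [TT, mem_filter] at hx
    simp only [mem_coe]
    rw [pow_succ]
    exact mul_mem_mul hx.1.1 (hB (hf1 lam hx.2))
  · rintro ⟨t, lam⟩ hx ⟨t', lam'⟩ hx' h
    simp only [coe_product, Set.mem_prod, mem_coe] at hx hx'
    rw [TT, mem_filter] at hx hx'
    simp only at h
    have h1 : lam = lam' := by
      have h2 := congrArg Ho.l h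
      rw [mul_l, mul_l, hx.1.2, hx'.1.2, one_mul, one_mul, hf2 lam hx.2, hf2 lam' hx'.2] at h2
      exact h2
    subst h1
    rw [mul_left_inj] at h
    rw [h]

/-- double counting of incidences -/
lemma sum_inc (P : Finset (ℝ × ℝ)) (a : Ho) (C : Finset Ho) {δ : ℝ}
    (h : ∀ b ∈ C, δ * P.card ≤ mm P (a * b)) :
    δ * P.card * C.card ≤ ∑ p ∈ P, ((C.filter (fun b => ap (a * b) p ∈ P)).card : ℝ) := by
  have h1 : ∑ p ∈ P, (C.filter (fun b => ap (a * b) p ∈ P)).card = ∑ b ∈ C, mm P (a * b) := by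
    unfold mm
    simp only [card_filter]
    exact sum_comm
  have h2 : C.card • (δ * P.card) ≤ ∑ b ∈ C, (mm P (a * b) : ℝ) :=
    card_nsmul_le_sum _ _ _ fun b hb => h b hb
  rw [nsmul_eq_mul] at h2
  have h3 : (∑ p ∈ P, ((C.filter (fun b => ap (a * b) p ∈ P)).card : ℝ)) =
      ∑ b ∈ C, (mm P (a * b) : ℝ) := by exact_mod_cast h1
  rw [h3]
  linarith

/-- Case of a large class of equal ratios. -/
lemma caseA {P : Finset (ℝ × ℝ)} (hP : NC P) (hPne : P.Nonempty) {δ D M0 : ℝ} (hδ : 0 < δ)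
    (hM0 : 0 ≤ M0)
    (hM : ∀ Q : Finset (ℝ × ℝ), M0 < Q.card → ((Q - Q).card : ℝ) ≤ D / δ * Q.card →
      ∃ x d : ℝ × ℝ, d ≠ 0 ∧ x ∈ Q ∧ x + d ∈ Q ∧ x + d + d ∈ Q)
    {S B : Finset Ho} {a : Ho} (hS : ∀ s ∈ S, s⁻¹ ∈ S) (hBS : B ⊆ S) (hBne : B.Nonempty)
    (hB : ∀ b ∈ B, δ * P.card ≤ mm P (a * b)) (hD0 : 0 ≤ D)
    (hD : ((S ^ 5).card : ℝ) ≤ D * B.card)
    (hbig : (M0 + 1) / δ * (B.image (fun b => b.l)).card ≤ B.card) : False := by
  classical
  set u := (B.image (fun b => b.l)).card with hu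
  have hupos : (0 : ℝ) < u := by
    rw [hu]; exact_mod_cast (hBne.image _).card_pos
  have h1 : ∃ lam ∈ B.image (fun b => b.l), (B.card : ℝ) / u ≤
      ((B.filter (fun b => b.l = lam)).card : ℝ) := by
    refine exists_le_of_sum_le (hBne.image _) ?_
    rw [sum_const, nsmul_eq_mul, ← hu, mul_div_cancel₀ _ hupos.ne']
    rw [← Nat.cast_sum, ← card_eq_sum_card_image]
  obtain ⟨lam, hlam, h2⟩ := h1
  set C := B.filter (fun b => b.l = lam) with hC
  have hCB : C ⊆ B := filter_subset _ _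
  have hCl : ∀ b ∈ C, b.l = lam := fun b hb => (mem_filter.1 hb).2
  have h3 : (M0 + 1) / δ ≤ C.card := by
    refine le_trans ?_ h2
    rw [le_div_iff₀ hupos]; exact hbig
  have hCpos : (0 : ℝ) < C.card := lt_of_lt_of_le (by positivity) h3
  -- few quotients
  have h4 : C * C⁻¹ ⊆ TT S := by
    intro x hx
    obtain ⟨b, hb, y, hy, rfl⟩ := mem_mul.1 hx
    obtain ⟨b', hb', rfl⟩ := mem_inv.1 hy
    rw [TT, mem_filter]
    constructor
    · have : b * b'⁻¹ = b * b'⁻¹ * b' * b'⁻¹ := by group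
      rw [this]
      exact mem4 (hBS (hCB hb)) (hS _ (hBS (hCB hb'))) (hBS (hCB hb')) (hS _ (hBS (hCB hb')))
    · rw [mul_l, inv_l, hCl b hb, hCl b' hb', mul_inv_cancel]
  have h5 : ((C * C⁻¹).card : ℝ) * u ≤ D * B.card := by
    refine le_trans ?_ hD
    have h6 := TT_card S B hBS
    rw [← hu] at h6
    have h7 := card_le_card h4
    exact_mod_cast (Nat.mul_le_mul_right u h7).trans h6
  have h6 : ((C * C⁻¹).card : ℝ) ≤ D * C.card := by
    have h7 : ((C * C⁻¹).card : ℝ) ≤ D * (B.card / u) := by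
      rw [← mul_div_assoc, le_div_iff₀ hupos]; exact h5
    exact h7.trans (mul_le_mul_of_nonneg_left h2 hD0)
  -- choice of a point
  have h7 : ∃ p ∈ P, δ * C.card ≤ ((C.filter (fun b => ap (a * b) p ∈ P)).card : ℝ) := by
    refine exists_le_of_sum_le hPne ?_
    rw [sum_const, nsmul_eq_mul]
    have := sum_inc P a C (fun b hb => hB b (hCB hb))
    linarith
  obtain ⟨p, hp, h8⟩ := h7
  set E := C.filter (fun b => ap (a * b) p ∈ P) with hE
  have hEC : E ⊆ C := filter_subset _ _
  set Q := E.image (fun b => b.v) with hQ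
  have hQc : Q.card = E.card := by
    rw [hQ]
    refine card_image_of_injOn ?_
    intro b hb b' hb' h
    exact Ho.ext ((hCl b (hEC hb)).trans (hCl b' (hEC hb')).symm) h
  have h9 : ((Q - Q).card : ℝ) ≤ D / δ * Q.card := by
    have h10 : Q - Q ⊆ (C * C⁻¹).image (fun b => b.v) := by
      intro x hx
      obtain ⟨y, hy, z, hz, rfl⟩ := mem_sub.1 hx
      rw [hQ, mem_image] at hy hz
      obtain ⟨b, hb, rfl⟩ := hy
      obtain ⟨b', hb', rfl⟩ := hz
      rw [mem_image]
      refine ⟨b * b'⁻¹, mul_mem_mul (hEC hb) (inv_mem_inv (hEC hb')), ?_⟩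
      rw [mul_v, inv_v, hCl b (hEC hb), hCl b' (hEC hb'), smul_neg, smul_smul,
        Units.mul_inv, one_smul]
      abel
    have h11 : ((Q - Q).card : ℝ) ≤ ((C * C⁻¹).card : ℝ) := by
      exact_mod_cast (card_le_card h10).trans card_image_le
    refine h11.trans (h6.trans ?_)
    rw [hQc, div_mul_eq_mul_div, le_div_iff₀ hδ]
    nlinarith
  have h10 : M0 < Q.card := by
    rw [hQc]
    have h11 : δ * ((M0 + 1) / δ) ≤ δ * C.card := mul_le_mul_of_nonneg_left h3 hδ.le
    rw [mul_div_cancel₀ _ hδ.ne'] at h11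
    linarith
  obtain ⟨x, d, hd, hx1, hx2, hx3⟩ := hM Q h10 h9
  have key : ∀ w ∈ Q, ap a ((lam : ℝ) • p + w) ∈ P := by
    intro w hw
    rw [hQ, mem_image] at hw
    obtain ⟨b, hb, rfl⟩ := hw
    have h11 := (mem_filter.1 hb).2
    rw [ap_mul] at h11
    have h12 : ap b p = (lam : ℝ) • p + b.v := by
      unfold ap
      rw [hCl b (hEC hb)]
    rw [← h12]; exact h11
  have e1 : ap a ((lam : ℝ) • p + (x + d)) - ap a ((lam : ℝ) • p + x) = (a.l : ℝ) • d := by
    rw [ap_sub]; congr 1; abel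
  have e2 : ap a ((lam : ℝ) • p + (x + d + d)) - ap a ((lam : ℝ) • p + x) =
      (2 : ℝ) • ((a.l : ℝ) • d) := by
    rw [ap_sub]
    have : (lam : ℝ) • p + (x + d + d) - ((lam : ℝ) • p + x) = (2 : ℝ) • d := by
      rw [two_smul]; abel
    rw [this, smul_comm]
  have hne : (a.l : ℝ) • d ≠ 0 := smul_ne_zero a.l_ne hd
  refine hP _ (key _ hx1) _ (key _ hx2) _ (key _ hx3) ?_ ?_ ?_ 2 ?_
  · intro h
    rw [← h, sub_self] at e1
    exact hne e1.symm
  · intro h
    rw [← h, sub_self] at e2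
    exact smul_ne_zero two_ne_zero hne e2.symm
  · intro h
    rw [← h, e1] at e2
    rw [two_smul] at e2
    exact hne (by simpa using e2)
  · rw [e1, e2]

/-- Case of many ratios. -/
lemma caseB {P : Finset (ℝ × ℝ)} (hP : NC P) {δ D M κ : ℝ} (hδ : 0 < δ) (hM : 0 < M)
    (hκ : 0 < κ)
    {S B : Finset Ho} {a : Ho} (hS : ∀ s ∈ S, s⁻¹ ∈ S) (hBS : B ⊆ S)
    (hB : ∀ b ∈ B, δ * P.card ≤ mm P (a * b)) (hD0 : 0 < D)
    (hD : ((S ^ 5).card : ℝ) ≤ D * B.card) (hBP : κ * P.card ≤ B.card)
    (h2M : 2 * M ≤ κ * P.card) (hn : 1 + 2 * (D * M) / κ < δ * P.card)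
    (hbig : (B.card : ℝ) < M * (B.image (fun b => b.l)).card) : False := by
  classical
  set u := (B.image (fun b => b.l)).card with hu
  have hPpos : (0 : ℝ) < P.card := by
    by_contra h
    have h3 : (P.card : ℝ) = 0 := le_antisymm (not_lt.1 h) (Nat.cast_nonneg _)
    rw [h3] at h2M; linarith
  have hBpos : (0 : ℝ) < B.card := lt_of_lt_of_le (by positivity) hBP
  have hu2 : (2 : ℝ) < u := by
    by_contra h
    rw [not_lt] at h
    have : (B.card : ℝ) < M * 2 := lt_of_lt_of_le hbig (mul_le_mul_of_nonneg_left h hM.le)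
    linarith
  have hu2' : 2 < u := by exact_mod_cast hu2
  have h1 : ∃ s0 ∈ B, s0.l ≠ 1 := by
    by_contra hcon
    push Not at hcon
    have h2 : B.image (fun b => b.l) ⊆ {1} := by
      intro x hx
      rw [mem_image] at hx
      obtain ⟨b, hb, rfl⟩ := hx
      rw [mem_singleton]
      exact hcon b hb
    have := card_le_card h2
    rw [card_singleton] at this
    omega
  obtain ⟨s0, hs0, hl0⟩ := h1
  obtain ⟨c0, hc0⟩ := exists_fix hl0
  have h2 : ((TT S).card : ℝ) ≤ D * M := by
    have h3 := TT_card S B hBS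
    rw [← hu] at h3
    have h4 : ((TT S).card : ℝ) * u ≤ D * B.card := le_trans (by exact_mod_cast h3) hD
    have h5 : ((TT S).card : ℝ) * u ≤ (D * M) * u := by
      refine h4.trans ?_
      have := mul_le_mul_of_nonneg_left hbig.le hD0.le
      linarith
    exact le_of_mul_le_mul_right h5 (by linarith)
  have hmap : ∀ b ∈ B, s0 * b * s0⁻¹ * b⁻¹ ∈ TT S := by
    intro b hb
    rw [TT, mem_filter]
    refine ⟨mem4 (hBS hs0) (hBS hb) (hS _ (hBS hs0)) (hS _ (hBS hb)), ?_⟩
    simp only [mul_l, inv_l]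
    rw [mul_comm s0.l b.l, mul_assoc b.l, mul_inv_cancel, mul_one, mul_inv_cancel]
  have hTne : (TT S).Nonempty := ⟨_, hmap s0 hs0⟩
  have hTpos : (0 : ℝ) < (TT S).card := by exact_mod_cast hTne.card_pos
  have h3 : ∃ t ∈ TT S, (B.card : ℝ) / (TT S).card ≤
      ((B.filter (fun b => s0 * b * s0⁻¹ * b⁻¹ = t)).card : ℝ) := by
    refine exists_le_of_sum_le hTne ?_
    rw [sum_const, nsmul_eq_mul, mul_div_cancel₀ _ hTpos.ne']
    rw [← Nat.cast_sum, ← card_eq_sum_card_fiberwise (fun b hb => hmap b hb)]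
  obtain ⟨t, ht, h4⟩ := h3
  set C := B.filter (fun b => s0 * b * s0⁻¹ * b⁻¹ = t) with hC
  have hCB : C ⊆ B := filter_subset _ _
  have htl : t.l = 1 := (mem_filter.1 ht).2
  have h5 : κ / (D * M) * P.card ≤ C.card := by
    refine le_trans ?_ h4
    rw [le_div_iff₀ hTpos]
    calc κ / (D * M) * P.card * (TT S).card ≤ κ / (D * M) * P.card * (D * M) :=
          mul_le_mul_of_nonneg_left h2 (by positivity)
      _ = κ * P.card := by field_simp
      _ ≤ _ := hBP
  -- common image of the fixed point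
  have h6 : ∀ b ∈ C, ap t (ap b c0) = ap s0 (ap b c0) := by
    intro b hb
    have h7 : s0 * b * s0⁻¹ = t * b := by
      rw [← (mem_filter.1 hb).2]; group
    have h8 : ap s0⁻¹ c0 = c0 := by
      nth_rewrite 1 [← hc0]
      rw [ap_inv_ap]
    have h9 := congrArg (fun g => ap g c0) h7
    simp only [ap_mul] at h9
    rw [h8] at h9
    exact h9.symm
  have h7 : ∀ b ∈ C, ∀ b' ∈ C, ap b c0 = ap b' c0 := by
    intro b hb b' hb'
    by_contra hne
    have := ext_two hne (h6 b hb) (h6 b' hb')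
    rw [← this] at hl0
    exact hl0 htl
  -- counting
  have h8 := sum_inc P a C (fun b hb => hB b (hCB hb))
  have h9 : ∑ p ∈ P, ((C.filter (fun b => ap (a * b) p ∈ P)).card : ℝ) ≤
      2 * P.card + C.card := by
    have h10 : ∀ p ∈ P, ((C.filter (fun b => ap (a * b) p ∈ P)).card : ℝ) ≤
        2 + if p = c0 then (C.card : ℝ) else 0 := by
      intro p hp
      by_cases hpc : p = c0
      · rw [if_pos hpc]
        have : ((C.filter (fun b => ap (a * b) p ∈ P)).card : ℝ) ≤ C.card := by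
          exact_mod_cast card_filter_le _ _
        linarith
      · rw [if_neg hpc, add_zero]
        by_cases hCe : C.Nonempty
        · obtain ⟨b0, hb0⟩ := hCe
          have h11 : ((C.filter (fun b => ap (a * b) p ∈ P)).image
              (fun b => ap (a * b) p)).card ≤ 2 := by
            refine hP.card_line _ ?_ (ap (a * b0) c0) (p - c0) ?_
            · intro x hx
              rw [mem_image] at hx
              obtain ⟨b, hb, rfl⟩ := hx
              exact (mem_filter.1 hb).2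
            · intro x hx
              rw [mem_image] at hx
              obtain ⟨b, hb, rfl⟩ := hx
              refine ⟨((a * b).l : ℝ), ?_⟩
              have h12 : ap (a * b0) c0 = ap (a * b) c0 := by
                rw [ap_mul, ap_mul, h7 b0 hb0 b (mem_filter.1 hb).1]
              rw [h12, ← ap_sub]; abel
          have h12 : ((C.filter (fun b => ap (a * b) p ∈ P)).image
              (fun b => ap (a * b) p)).card = (C.filter (fun b => ap (a * b) p ∈ P)).card := by
            refine card_image_of_injOn ?_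
            intro b hb b' hb' h
            have h13 : a * b = a * b' := by
              refine ext_two (p := p) (q := c0) hpc h ?_
              rw [ap_mul, ap_mul, h7 b (mem_filter.1 hb).1 b' (mem_filter.1 hb').1]
            exact mul_left_cancel h13
          rw [h12] at h11
          exact_mod_cast h11
        · rw [not_nonempty_iff_eq_empty] at hCe
          rw [hCe]; simp
    refine (sum_le_sum h10).trans ?_
    rw [sum_add_distrib, sum_const, nsmul_eq_mul, sum_ite_eq']
    split_ifs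
    · linarith
    · have : (0 : ℝ) ≤ C.card := Nat.cast_nonneg _
      linarith
  have h10 : (δ * P.card - 1) * C.card ≤ 2 * P.card := by linarith
  have h11 : 2 * (D * M) / κ < δ * P.card - 1 := by linarith
  have h12 : 2 * (D * M) / κ * (κ / (D * M) * P.card) < (δ * P.card - 1) * C.card := by
    have h13 : 0 < 2 * (D * M) / κ := by positivity
    exact mul_lt_mul h11 h5 (by positivity) (by linarith)
  have h13 : 2 * (D * M) / κ * (κ / (D * M) * P.card) = 2 * P.card := by
    field_simp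
  rw [h13] at h12
  linarith

/-- **Few rich homotheties.** -/
theorem few_rich (δ ε : ℝ) (hδ : 0 < δ) (hε : 0 < ε) : ∃ N : ℝ, ∀ P : Finset (ℝ × ℝ),
    NC P → N ≤ P.card → ∀ G : Finset Ho, (∀ g ∈ G, δ * P.card ≤ mm P g) →
    (G.card : ℝ) < ε * P.card := by
  classical
  set K : ℝ := 2 ^ 26 / (δ ^ 10 * ε ^ 2) with hK
  have hKpos : 0 < K := by positivity
  set D : ℝ := (2 * K ^ 2) ^ 6 + δ with hD
  have hDpos : 0 < D := by positivity
  obtain ⟨M1, hM1⟩ := roth_diff (V := ℝ × ℝ) (D / δ) (by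
    rw [one_le_div hδ, hD]
    have : 0 < (2 * K ^ 2) ^ 6 := by positivity
    linarith)
  set M0 : ℝ := max M1 0 with hM0
  have hM0' : 0 ≤ M0 := le_max_right _ _
  set M : ℝ := (M0 + 1) / δ with hMd
  have hMpos : 0 < M := by positivity
  set κ : ℝ := δ * ε / (8 * K) with hκ
  have hκpos : 0 < κ := by positivity
  refine ⟨max (64 / δ ^ 2) (max (2 * M / κ) ((1 + 2 * (D * M) / κ) / δ + 1)),
    fun P hP hN G hG => ?_⟩
  by_contra hcon
  rw [not_lt] at hcon
  have hN1 : 64 / δ ^ 2 ≤ P.card := (le_max_left _ _).trans hN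
  have hN2 : 2 * M / κ ≤ P.card := (le_max_left _ _).trans ((le_max_right _ _).trans hN)
  have hN3 : (1 + 2 * (D * M) / κ) / δ + 1 ≤ P.card :=
    (le_max_right _ _).trans ((le_max_right _ _).trans hN)
  have hPpos : (0 : ℝ) < P.card := lt_of_lt_of_le (by positivity) hN1
  have hPne : P.Nonempty := by
    rw [← card_pos]; exact_mod_cast hPpos
  have h2 : 2 ≤ δ ^ 2 / 32 * P.card := by
    rw [div_le_iff₀ (by positivity)] at hN1
    linarith
  obtain ⟨A, hAG, hA1, hA2⟩ := drc hP hδ hε h2 G hG hcon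
  have hApos : (0 : ℝ) < A.card := lt_of_lt_of_le (by positivity) hA1
  have hAne : A.Nonempty := by
    rw [← card_pos]; exact_mod_cast hApos
  have hAK : ((A * A⁻¹).card : ℝ) ≤ K * A.card := by
    have h3 : K * (δ * ε / 4 * P.card) ≤ K * A.card := mul_le_mul_of_nonneg_left hA1 hKpos.le
    refine le_trans ?_ h3
    have h4 : K * (δ * ε / 4 * P.card) = 2 ^ 24 * P.card / (δ ^ 9 * ε) := by
      rw [hK]; field_simp; ring
    rw [h4, le_div_iff₀ (by positivity)]
    exact hA2
  obtain ⟨a, ha, h3⟩ := exists_base A hAne hKpos hAK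
  set B := (A.filter (fun b => a⁻¹ * b ∈ SS A K)).image (fun b => a⁻¹ * b) with hB
  have hBc : B.card = (A.filter (fun b => a⁻¹ * b ∈ SS A K)).card := by
    rw [hB]
    exact card_image_of_injective _ (mul_right_injective _)
  rw [← hBc] at h3
  have hBS : B ⊆ SS A K := by
    intro x hx
    rw [hB, mem_image] at hx
    obtain ⟨b, hb, rfl⟩ := hx
    exact (mem_filter.1 hb).2
  have hBG : ∀ b ∈ B, δ * P.card ≤ mm P (a * b) := by
    intro x hx
    rw [hB, mem_image] at hx
    obtain ⟨b, hb, rfl⟩ := hx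
    rw [mul_inv_cancel_left]
    exact hG b (hAG (mem_filter.1 hb).1)
  have h5 := pow_le A hAne hKpos hAK 5
  have hS5 : (((SS A K) ^ 5).card : ℝ) ≤ D * B.card := by
    refine h5.trans ?_
    have h6 : (2 * K ^ 2) ^ 5 * K * A.card ≤ (2 * K ^ 2) ^ 5 * K * (2 * K * B.card) :=
      mul_le_mul_of_nonneg_left h3 (by positivity)
    refine h6.trans ?_
    have h7 : (2 * K ^ 2) ^ 5 * K * (2 * K * B.card) = (2 * K ^ 2) ^ 6 * B.card := by ring
    rw [h7]
    refine mul_le_mul_of_nonneg_right ?_ (Nat.cast_nonneg _)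
    rw [hD]; linarith
  have hBκ : κ * P.card ≤ B.card := by
    have h6 : δ * ε / 4 * P.card ≤ 2 * K * B.card := hA1.trans h3
    have h7 : κ * P.card = δ * ε / 4 * P.card / (2 * K) := by
      rw [hκ]; field_simp; ring
    rw [h7, div_le_iff₀ (by positivity)]
    linarith
  have hBpos : (0 : ℝ) < B.card := lt_of_lt_of_le (by positivity) hBκ
  have hBne : B.Nonempty := by
    rw [← card_pos]; exact_mod_cast hBpos
  rcases le_or_gt (M * (B.image (fun b => b.l)).card) (B.card : ℝ) with h6 | h6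
  · refine caseA hP hPne hδ hM0' ?_ (fun s hs => SS_inv A K hs) hBS hBne hBG hDpos.le hS5 h6
    intro Q hQ1 hQ2
    exact hM1 Q (lt_of_le_of_lt (le_max_left _ _) hQ1) hQ2
  · refine caseB hP hδ hMpos hκpos (fun s hs => SS_inv A K hs) hBS hBG hDpos hS5 hBκ ?_ ?_ h6
    · rw [div_le_iff₀ hκpos] at hN2
      linarith
    · have h7 : (1 + 2 * (D * M) / κ) / δ < P.card := by linarith
      rw [div_lt_iff₀ hδ] at h7
      linarith

end Pool.Agent.H45.BK
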